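import Pool.Agent.Helper59.AN.Goals

/-! # MP_4137ca_lc, packet LOW: closure properties of truth values of low rank. -/

noncomputable section

namespace AN.PkLOW

open Pool.Agent.Helper97.Ku NU AN

theorem part_sup {X : Type} [LinearOrder X] (R : Rnk X) (I : Type) (b : X) (H : Set (I × X))
    (J : Type) (c : J → RO (Cd R I)) (h : ∀ j, Low R b H (c j)) : Low R b H (⨆ j, c j) := by
  intro p hp
  obtain ⟨r, hr, j, hj⟩ := RO.mem_iSup.1 hp p le_rfl
  obtain ⟨q, hq, hql, r', hr', hr''⟩ := h j r hj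
  refine ⟨q, ?_, hql, r', hr'.trans hr, hr''⟩
  exact RO.mem_iSup.2 fun t ht => ⟨t, le_rfl, j, RO.lower ht hq⟩

theorem part_inf {X : Type} [LinearOrder X] (R : Rnk X) (I : Type) (b : X) (H : Set (I × X))
    (c d : RO (Cd R I)) (hc : Low R b H c) (hd : Low R b H d) : Low R b H (c ⊓ d) := by
  classical
  intro p hp
  obtain ⟨hpc, hpd⟩ := RO.mem_inf.1 hp
  obtain ⟨q, hq, hql, r, hrp, hrq⟩ := hc p hpc
  obtain ⟨q', hq', hql', r', hr'r, hr'q'⟩ := hd r (RO.lower hrp hpd)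
  have h1 : ∀ v ∈ q.1, v ∈ r'.1 := fun v hv => hr'r (hrq hv)
  have h2 : ∀ v ∈ q'.1, v ∈ r'.1 := fun v hv => hr'q' hv
  have hu : ∀ v ∈ q.1 ∪ q'.1, v ∈ r'.1 := fun v hv => by
    rcases Finset.mem_union.1 hv with h | h
    · exact h1 v h
    · exact h2 v h
  let t : Cd R I := ⟨q.1 ∪ q'.1, fun v hv w hw => r'.2 v (hu v hv) w (hu w hw)⟩
  have htq : t ≤ q := Cd.le_def.2 Finset.subset_union_left
  have htq' : t ≤ q' := Cd.le_def.2 Finset.subset_union_right
  refine ⟨t, RO.mem_inf.2 ⟨RO.lower htq hq, RO.lower htq' hq'⟩, ?_, r', ?_, ?_⟩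
  · intro v hv
    rcases Finset.mem_union.1 hv with h | h
    · exact hql v h
    · exact hql' v h
  · exact hr'r.trans hrp
  · exact Cd.le_def.2 fun v hv => hu v hv

theorem lowV_mono {X : Type} [LinearOrder X] (R : Rnk X) {I : Type} {b b' : X}
    {H H' : Set (I × X)} (hb : b ≤ b') (hH : H ⊆ H') (v : Vx I X) (h : LowV R b H v) :
    LowV R b' H' v := by
  cases v with
  | a i s σ => trivial
  | g i x s =>
    rcases h with h | h
    · exact Or.inl (hH h)
    · exact Or.inr (le_trans h hb)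

theorem part_mono {X : Type} [LinearOrder X] (R : Rnk X) (I : Type) (b b' : X)
    (H H' : Set (I × X)) (c : RO (Cd R I)) (hb : b ≤ b') (hH : H ⊆ H') (h : Low R b H c) :
    Low R b' H' c := by
  intro p hp
  obtain ⟨q, hq, hql, r, h1, h2⟩ := h p hp
  exact ⟨q, hq, fun v hv => lowV_mono R hb hH v (hql v hv), r, h1, h2⟩

theorem part_ccc {X : Type} [LinearOrder X] (R : Rnk X) (I : Type)
    (hccc : CccL (RO (Cd R I))) (b : X) (c : RO (Cd R I)) :
    ∃ H : Set (I × X), H.Countable ∧ Low R b H c := by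
  classical
  let S : Set (Set (Cd R I)) :=
    {A | (∀ q ∈ A, q ∈ c) ∧ A.Pairwise fun q q' => ¬ ∃ r, r ≤ q ∧ r ≤ q'}
  obtain ⟨A, hA⟩ := zorn_subset S (by
    intro C hC hch
    refine ⟨⋃₀ C, ⟨?_, ?_⟩, fun s hs => Set.subset_sUnion_of_mem hs⟩
    · rintro q ⟨s, hs, hq⟩
      exact (hC hs).1 q hq
    · rw [Set.pairwise_sUnion hch.directedOn]
      intro s hs
      exact (hC hs).2)
  have hAS : A ∈ S := hA.prop
  have hcount : A.Countable := by
    have := hccc A (fun q => RO.cl {r | r ≤ q.1}) (by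
      intro q hq
      have h1 : q.1 ∈ RO.cl {r | r ≤ q.1} := fun t ht => ⟨t, le_rfl, ht⟩
      rw [hq] at h1
      exact RO.not_mem_bot _ h1) (by
      intro q q' hqq'
      apply le_antisymm _ bot_le
      rw [RO.le_def]
      intro p hp
      exfalso
      obtain ⟨hp1, hp2⟩ := RO.mem_inf.1 hp
      obtain ⟨r, hr, hrq⟩ := RO.mem_cl.1 hp1 p le_rfl
      obtain ⟨r', hr', hrq'⟩ := RO.mem_cl.1 hp2 r hr
      exact hAS.2 q.2 q'.2 (fun h => hqq' (Subtype.ext h)) ⟨r', hr'.trans hrq, hrq'⟩)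
    exact Set.countable_coe_iff.1 this
  refine ⟨⋃ q ∈ A, ⋃ v ∈ q.1, {t | ∃ s, v = Vx.g t.1 t.2 s}, ?_, ?_⟩
  · refine hcount.biUnion fun q _ => ?_
    refine Set.Countable.biUnion (Finset.countable_toSet q.1) fun v _ => ?_
    refine Set.Subsingleton.countable ?_
    rintro ⟨i, x⟩ ⟨s, hs⟩ ⟨i', x'⟩ ⟨s', hs'⟩
    rw [hs] at hs'
    injection hs' with h1 h2 h3
    exact Prod.ext h1 h2
  · intro p hp
    have hex : ∃ q ∈ A, ∃ r, r ≤ p ∧ r ≤ q := by
      by_contra hne
      have hins : insert p A ∈ S := by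
        refine ⟨?_, ?_⟩
        · intro q hq
          rcases hq with rfl | hq
          · exact hp
          · exact hAS.1 q hq
        · rw [Set.pairwise_insert]
          refine ⟨hAS.2, ?_⟩
          intro q hq _
          refine ⟨fun ⟨r, h1, h2⟩ => hne ⟨q, hq, r, h1, h2⟩,
            fun ⟨r, h1, h2⟩ => hne ⟨q, hq, r, h2, h1⟩⟩
      have hpA : p ∈ A := hA.le_of_ge hins (Set.subset_insert p A) (Set.mem_insert p A)
      exact hne ⟨p, hpA, p, le_rfl, le_rfl⟩
    obtain ⟨q, hqA, r, h1, h2⟩ := hex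
    refine ⟨q, hAS.1 q hqA, ?_, r, h1, h2⟩
    intro v hv
    cases v with
    | a i s σ => trivial
    | g i x s =>
      left
      refine Set.mem_biUnion hqA ?_
      refine Set.mem_biUnion (show Vx.g i x s ∈ (q.1 : Set (Vx I X)) from hv) ?_
      exact ⟨s, rfl⟩

theorem low (hccc : G_CCC) : G_LOW := by
  intro X _ R I
  exact ⟨part_sup R I, part_inf R I, part_mono R I, part_ccc R I (hccc X R I)⟩

end AN.PkLOW
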